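import Pool.Agent.N353.Star.Transfer

set_option autoImplicit false

namespace Pool.Agent.N353.Conn

open Finset Filter Pool.Agent.Helper46 Pool.Agent.Helper46.A Pool.Agent.Helper46.A.F
  Pool.Agent.N353.Star

/-- one step towards the middle of the triangle loses only a constant factor -/
theorem choose_step {n r : ℕ} (hn : 2 ≤ n) (h1 : n ≤ 16 * r) (h2 : n ≤ 16 * (n - r)) (hr : r ≤ n) :
    n.choose r ≤ 256 * (n - 2).choose (r - 1) := by
  obtain ⟨m, rfl⟩ : ∃ m, n = m + 2 := ⟨n - 2, by omega⟩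
  obtain ⟨s, rfl⟩ : ∃ s, r = s + 1 := ⟨r - 1, by omega⟩
  simp only [Nat.add_sub_cancel]
  have e1 : (m + 2) * (m + 1).choose s = (m + 2).choose (s + 1) * (s + 1) :=
    Nat.add_one_mul_choose_eq (m + 1) s
  have e2 : (m + 1).choose s * (m + 1 - s) = (m + 1) * m.choose s := by
    have := Nat.choose_mul_succ_eq m s
    linarith [this]
  have hs : s ≤ m := by omega
  have h3 : m + 2 - (s + 1) = m + 1 - s := by omega
  rw [h3] at h2
  set A := (m + 2).choose (s + 1)
  set C := m.choose s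
  set t := m + 1 - s with ht
  have hprod : (m + 2) * (m + 1) * C = A * ((s + 1) * t) := by
    calc (m + 2) * (m + 1) * C = (m + 2) * ((m + 1) * C) := by ring
      _ = (m + 2) * ((m + 1).choose s * t) := by rw [e2]
      _ = ((m + 2) * (m + 1).choose s) * t := by ring
      _ = A * (s + 1) * t := by rw [e1]
      _ = _ := by ring
  have hq : (m + 2) * (m + 1) ≤ 256 * ((s + 1) * t) := by
    calc (m + 2) * (m + 1) ≤ (m + 2) * (m + 2) := by gcongr; omega
      _ ≤ (16 * (s + 1)) * (16 * t) := Nat.mul_le_mul h1 h2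
      _ = _ := by ring
  have : A * ((m + 2) * (m + 1)) ≤ 256 * C * ((m + 2) * (m + 1)) := by
    calc A * ((m + 2) * (m + 1)) ≤ A * (256 * ((s + 1) * t)) := Nat.mul_le_mul_left _ hq
      _ = 256 * (A * ((s + 1) * t)) := by ring
      _ = 256 * ((m + 2) * (m + 1) * C) := by rw [hprod]
      _ = _ := by ring
  exact Nat.le_of_mul_le_mul_right this (by positivity)

theorem choose_iter (j : ℕ) : ∀ n r : ℕ, r ≤ n → n + 16 * j ≤ 16 * r → n + 16 * j ≤ 16 * (n - r) →
    n.choose r ≤ 256 ^ j * (n - 2 * j).choose (r - j) := by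
  induction j with
  | zero => intro n r _ _ _; simp
  | succ j ih =>
    intro n r hr h1 h2
    have hs := choose_step (n := n) (r := r) (by omega) (by omega) (by omega) hr
    have h3 := ih (n - 2) (r - 1) (by omega) (by omega) (by omega)
    have e1 : n - 2 - 2 * j = n - 2 * (j + 1) := by omega
    have e2 : r - 1 - j = r - (j + 1) := by omega
    rw [e1, e2] at h3
    calc n.choose r ≤ 256 * (n - 2).choose (r - 1) := hs
      _ ≤ 256 * (256 ^ j * (n - 2 * (j + 1)).choose (r - (j + 1))) := Nat.mul_le_mul_left _ h3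
      _ = _ := by rw [pow_succ]; ring

/-- a separation forces many nonbases -/
theorem sep_nonbases {n r j : ℕ} (hj : 1 ≤ j) (M : Matroid (Fin n))
    (hB : IsBF r (bs_22726 M)) (X Y : Set (Fin n)) (hXY : X ∪ Y = Set.univ) (hd : Disjoint X Y)
    (hX : (j : ℕ∞) ≤ X.encard) (hY : (j : ℕ∞) ≤ Y.encard)
    (hr : M.eRk X + M.eRk Y + 1 ≤ M.eRank + j) (hjr : j ≤ r) :
    (n - 2 * j).choose (r - j) ≤
      ((powersetCard r (univ : Finset (Fin n))) \ bs_22726 M).card := by
  classical
  -- finite versions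
  lift X to Finset (Fin n) using X.toFinite
  lift Y to Finset (Fin n) using Y.toFinite
  rw [Set.encard_coe_eq_coe_finsetCard] at hX hY
  have hX' : j ≤ X.card := by exact_mod_cast hX
  have hY' : j ≤ Y.card := by exact_mod_cast hY
  have hdf : Disjoint X Y := by exact_mod_cast hd
  have hcov : X ∪ Y = univ :=
    Finset.coe_injective (by rw [Finset.coe_union, Finset.coe_univ]; exact hXY)
  obtain ⟨X0, hX0, hX0c⟩ := exists_subset_card_eq hX'
  obtain ⟨Y0, hY0, hY0c⟩ := exists_subset_card_eq hY'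
  have hd0 : Disjoint X0 Y0 := disjoint_of_subset_left hX0 (disjoint_of_subset_right hY0 hdf)
  set W : Finset (Fin n) := univ \ (X0 ∪ Y0) with hW
  have hWc : W.card = n - 2 * j := by
    rw [hW, card_sdiff_of_subset (subset_univ _), card_univ, Fintype.card_fin,
      card_union_of_disjoint hd0, hX0c, hY0c]
    omega
  have hrank : M.eRank = r := by
    obtain ⟨B, hBm⟩ := hB.ne
    have h1 := (mem_bs_22726 M B).1 hBm
    rw [← h1.encard_eq_eRank, Set.encard_coe_eq_coe_finsetCard, hB.card B hBm]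
  have hSW : ∀ S ∈ powersetCard (r - j) W, Disjoint S X0 ∧ Disjoint S Y0 ∧ S.card = r - j := by
    intro S hS
    rw [mem_powersetCard] at hS
    have h1 : Disjoint S (X0 ∪ Y0) := by
      rw [Finset.disjoint_left]
      intro x hx
      have := hS.1 hx
      rw [hW, Finset.mem_sdiff] at this
      exact this.2
    exact ⟨disjoint_of_subset_right subset_union_left h1,
      disjoint_of_subset_right subset_union_right h1, hS.2⟩
  -- not both are bases
  have key : ∀ S ∈ powersetCard (r - j) W,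
      ¬ (S ∪ X0 ∈ bs_22726 M ∧ S ∪ Y0 ∈ bs_22726 M) := by
    rintro S hS ⟨h1, h2⟩
    obtain ⟨hs1, hs2, hs3⟩ := hSW S hS
    rw [mem_bs_22726] at h1 h2
    have i1 : M.Indep (((S ∩ X) ∪ X0 : Finset (Fin n)) : Set (Fin n)) :=
      h1.indep.subset (by
        have : (S ∩ X) ∪ X0 ⊆ S ∪ X0 := union_subset_union_left inter_subset_left
        exact_mod_cast this)
    have i2 : M.Indep (((S ∩ Y) ∪ Y0 : Finset (Fin n)) : Set (Fin n)) :=
      h2.indep.subset (by
        have : (S ∩ Y) ∪ Y0 ⊆ S ∪ Y0 := union_subset_union_left inter_subset_left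
        exact_mod_cast this)
    have k1 := i1.encard_le_eRk_of_subset (X := (X : Set (Fin n))) (by
      have : (S ∩ X) ∪ X0 ⊆ X := union_subset inter_subset_right hX0
      exact_mod_cast this)
    have k2 := i2.encard_le_eRk_of_subset (X := (Y : Set (Fin n))) (by
      have : (S ∩ Y) ∪ Y0 ⊆ Y := union_subset inter_subset_right hY0
      exact_mod_cast this)
    rw [Set.encard_coe_eq_coe_finsetCard] at k1 k2
    have c1 : ((S ∩ X) ∪ X0).card = (S ∩ X).card + j := by
      rw [card_union_of_disjoint (disjoint_of_subset_left inter_subset_left hs1), hX0c]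
    have c2 : ((S ∩ Y) ∪ Y0).card = (S ∩ Y).card + j := by
      rw [card_union_of_disjoint (disjoint_of_subset_left inter_subset_left hs2), hY0c]
    have c3 : (S ∩ X).card + (S ∩ Y).card = S.card := by
      rw [← card_union_of_disjoint
        (disjoint_of_subset_left inter_subset_right (disjoint_of_subset_right inter_subset_right hdf)),
        ← inter_union_distrib_left, hcov, inter_univ]
    have k3 : ((((S ∩ X) ∪ X0).card : ℕ∞)) + (((S ∩ Y) ∪ Y0).card : ℕ∞) + 1 ≤ (r : ℕ∞) + j := by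
      rw [← hrank]
      refine le_trans ?_ hr
      gcongr
    rw [c1, c2] at k3
    have k4 : (S ∩ X).card + j + ((S ∩ Y).card + j) + 1 ≤ r + j := by exact_mod_cast k3
    omega
  -- the injection
  let f : Finset (Fin n) → Finset (Fin n) := fun S => if S ∪ X0 ∈ bs_22726 M then S ∪ Y0 else S ∪ X0
  have hcardS : (powersetCard (r - j) W).card = (n - 2 * j).choose (r - j) := by
    rw [card_powersetCard, hWc]
  rw [← hcardS]
  have hback : ∀ S ∈ powersetCard (r - j) W, f S \ (X0 ∪ Y0) = S := by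
    intro S hS
    obtain ⟨hs1, hs2, hs3⟩ := hSW S hS
    have hh : ∀ Z : Finset (Fin n), Z ⊆ X0 ∪ Y0 → (S ∪ Z) \ (X0 ∪ Y0) = S := by
      intro Z hZ
      ext x
      rw [Finset.mem_sdiff, mem_union]
      constructor
      · rintro ⟨h1 | h1, h2⟩
        · exact h1
        · exact absurd (hZ h1) h2
      · intro h1
        refine ⟨Or.inl h1, ?_⟩
        rw [mem_union, not_or]
        exact ⟨Finset.disjoint_left.1 hs1 h1, Finset.disjoint_left.1 hs2 h1⟩
    simp only [f]
    split_ifs
    · exact hh Y0 subset_union_right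
    · exact hh X0 subset_union_left
  refine card_le_card_of_injOn f ?_ ?_
  · intro S hS
    rw [mem_coe] at hS ⊢
    obtain ⟨hs1, hs2, hs3⟩ := hSW S hS
    rw [Finset.mem_sdiff, mem_powersetCard]
    simp only [f]
    split_ifs with h
    · refine ⟨⟨subset_univ _, ?_⟩, fun h2 => key S hS ⟨h, h2⟩⟩
      rw [card_union_of_disjoint hs2, hs3, hY0c]
      omega
    · refine ⟨⟨subset_univ _, ?_⟩, h⟩
      rw [card_union_of_disjoint hs1, hs3, hX0c]
      omega
  · intro S hS T hT h
    rw [mem_coe] at hS hT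
    rw [← hback S hS, ← hback T hT, h]

theorem det (k : ℕ) : ∀ᶠ n : ℕ in atTop, ∀ (M : Lab n) (r : ℕ), r ≤ n →
    IsBF r (bs_22726 M.1) → Good n r (1 / (2 * 256 ^ k)) (bs_22726 M.1) →
    ∀ j : ℕ, 1 ≤ j → j < k → ∀ X Y : Set (Fin n), ¬ (X ∪ Y = M.1.E ∧ Disjoint X Y ∧
      (j : ℕ∞) ≤ X.encard ∧ (j : ℕ∞) ≤ Y.encard ∧
      M.1.eRk X + M.1.eRk Y + 1 ≤ M.1.eRank + j) := by
  filter_upwards [eventually_ge_atTop (16 * k + 16)] with n hn M r hr hB hG j hj1 hj2 X Y
  rintro ⟨h1, h2, h3, h4, h5⟩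
  rw [M.2] at h1
  obtain ⟨g1, g2, g3⟩ := hG
  have hnb := sep_nonbases hj1 M.1 hB X Y h1 h2 h3 h4 h5 (by omega)
  have hch := choose_iter j n r hr (by omega) (by omega)
  have hpos : 0 < n.choose r := Nat.choose_pos hr
  have e1 : (n.choose r : ℝ) ≤ 256 ^ j * ((n - 2 * j).choose (r - j) : ℝ) := by exact_mod_cast hch
  have e2 : ((n - 2 * j).choose (r - j) : ℝ) ≤
      (((powersetCard r (univ : Finset (Fin n))) \ bs_22726 M.1).card : ℝ) := by exact_mod_cast hnb
  have e3 : (0 : ℝ) < n.choose r := by exact_mod_cast hpos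
  have e4 : (256 : ℝ) ^ j ≤ 256 ^ k := pow_le_pow_right₀ (by norm_num) (by omega)
  have e5 : (n.choose r : ℝ) ≤ 256 ^ k * (1 / (2 * 256 ^ k) * (n.choose r : ℝ)) := by
    calc (n.choose r : ℝ) ≤ 256 ^ j * ((n - 2 * j).choose (r - j) : ℝ) := e1
      _ ≤ 256 ^ k * (1 / (2 * 256 ^ k) * (n.choose r : ℝ)) :=
        mul_le_mul e4 (e2.trans g3) (by positivity) (by positivity)
  have e6 : (256 : ℝ) ^ k * (1 / (2 * 256 ^ k) * (n.choose r : ℝ)) = (n.choose r : ℝ) / 2 := by
    have : (256 : ℝ) ^ k ≠ 0 := by positivity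
    field_simp
  rw [e6] at e5
  linarith

end Pool.Agent.N353.Conn
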